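import Pool.Agent.Helper89.TT.Basic
import Pool.Agent.Helper89.TT.Stmts2

set_option autoImplicit false

open Finset

namespace Pool.Agent.Helper89.TT

/-- binary logarithms of natural numbers -/
theorem box_log (x : ℕ) (hx : 0 < x) :
    (Nat.log 2 x : ℝ) ≤ Real.logb 2 x ∧ Real.logb 2 x ≤ Nat.log 2 x + 1 := by
  have h1 : 2 ^ Nat.log 2 x ≤ x := Nat.pow_log_le_self 2 hx.ne'
  have h2 : x < 2 ^ (Nat.log 2 x + 1) := Nat.lt_pow_succ_log_self (by norm_num) x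
  have hx' : (0 : ℝ) < x := by exact_mod_cast hx
  constructor
  · rw [Real.le_logb_iff_rpow_le (by norm_num) hx', Real.rpow_natCast]
    exact_mod_cast h1
  · rw [Real.logb_le_iff_le_rpow (by norm_num) hx']
    have h3 : (2 : ℝ) ^ ((Nat.log 2 x : ℝ) + 1) = (2 : ℝ) ^ (Nat.log 2 x + 1) := by
      rw [← Real.rpow_natCast]; push_cast; rfl
    rw [h3]
    exact_mod_cast h2.le

theorem box_logb_mono {x y : ℕ} (hx : 0 < x) (h : x ≤ y) :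
    Real.logb 2 (x : ℝ) ≤ Real.logb 2 (y : ℝ) := by
  have hx' : (0 : ℝ) < x := by exact_mod_cast hx
  exact Real.logb_le_logb_of_le (by norm_num) hx' (by exact_mod_cast h)

theorem box_logb_mul {x y : ℕ} (hx : 0 < x) (hy : 0 < y) :
    Real.logb 2 ((x * y : ℕ) : ℝ) = Real.logb 2 (x : ℝ) + Real.logb 2 (y : ℝ) := by
  have hx' : (x : ℝ) ≠ 0 := by exact_mod_cast hx.ne'
  have hy' : (y : ℝ) ≠ 0 := by exact_mod_cast hy.ne'
  rw [Nat.cast_mul, Real.logb_mul hx' hy']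

theorem box_logb_three : Real.logb 2 ((3 : ℕ) : ℝ) ≤ 2 := by
  rw [Real.logb_le_iff_le_rpow (by norm_num) (by norm_num)]
  norm_num

/-- all entries are positive -/
theorem box_pos {S G N Y a a' b b' g g' d d' : ℕ} (h : Tup S G N Y a a' b b' g g' d d') :
    0 < a ∧ 0 < a' ∧ 0 < b ∧ 0 < b' ∧ 0 < g ∧ 0 < g' ∧ 0 < d ∧ 0 < d' := by
  obtain ⟨ha, hb, hg, hd', -, -, -, -, h1, h2, h3, h4, -⟩ := h
  have e1 : 0 < a' * b' := lt_of_le_of_lt (Nat.zero_le _) h1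
  have e2 : 0 < a' * g' := lt_of_le_of_lt (Nat.zero_le _) h2
  have e3 : 0 < g * d := lt_of_le_of_lt (Nat.zero_le _) h3
  exact ⟨ha, Nat.pos_of_ne_zero (by rintro rfl; simp at e1),
    hb, Nat.pos_of_ne_zero (by rintro rfl; simp at e1), hg,
    Nat.pos_of_ne_zero (by rintro rfl; simp at e2),
    Nat.pos_of_ne_zero (by rintro rfl; simp at e3), hd'⟩

/-- all entries are at most `3 N` -/
theorem box_le {S G N Y a a' b b' g g' d d' : ℕ} (h : Tup S G N Y a a' b b' g g' d d') :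
    a ≤ 3 * N ∧ a' ≤ 3 * N ∧ b ≤ 3 * N ∧ b' ≤ 3 * N ∧ g ≤ 3 * N ∧ g' ≤ 3 * N ∧ d ≤ 3 * N ∧
      d' ≤ 3 * N := by
  obtain ⟨ha, ha', hb, hb', hg, hg', hd, hd'⟩ := box_pos h
  obtain ⟨-, -, -, -, -, -, -, -, h1, h2, h3, h4, -, -, -, -, -, -, -, -, -, -, h5, h6, -⟩ := h
  have e1 : a' * b' ≤ 3 * N := le_trans (Nat.le_mul_of_pos_right _ (Nat.mul_pos hg hd)) h5
  have e2 : g * d ≤ 3 * N := le_trans (Nat.le_mul_of_pos_left _ (Nat.mul_pos ha' hb')) h5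
  have e3 : a' * g' ≤ 3 * N := le_trans (Nat.le_mul_of_pos_right _ (Nat.mul_pos hb hd)) h6
  have e4 : b * d ≤ 3 * N := le_trans (Nat.le_mul_of_pos_left _ (Nat.mul_pos ha' hg')) h6
  refine ⟨?_, ?_, ?_, ?_, ?_, ?_, ?_, ?_⟩
  · exact le_trans (Nat.le_mul_of_pos_right _ hb) (h1.le.trans e1)
  · exact le_trans (Nat.le_mul_of_pos_right _ hb') e1
  · exact le_trans (Nat.le_mul_of_pos_right _ hd) e4
  · exact le_trans (Nat.le_mul_of_pos_left _ ha') e1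
  · exact le_trans (Nat.le_mul_of_pos_right _ hd) e2
  · exact le_trans (Nat.le_mul_of_pos_left _ ha') e3
  · exact le_trans (Nat.le_mul_of_pos_left _ hg) e2
  · exact le_trans (Nat.le_mul_of_pos_left _ hg') (h3.le.trans e2)

/-- the optimisation applied to one tuple -/
theorem box_lp (hLP : ST_LP) {S G N Y a a' b b' g g' d d' : ℕ} (hN : 1 ≤ N) (hY : 1 ≤ Y)
    (hYN : Y ≤ N) (h : Tup S G N Y a a' b b' g g' d d') :
    (Nat.log 2 a' : ℝ) + Nat.log 2 b' + max 0 ((Nat.log 2 g' : ℝ) - Nat.log 2 a) +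
        max 0 ((Nat.log 2 d : ℝ) - Nat.log 2 b') ≤
      9 / 10 * Real.logb 2 N + (Real.logb 2 N - Real.logb 2 Y) + 10 * 6 ∨
    (Nat.log 2 a' : ℝ) + Nat.log 2 g' + max 0 ((Nat.log 2 b' : ℝ) - Nat.log 2 a) +
        max 0 ((Nat.log 2 d : ℝ) - Nat.log 2 g') ≤
      9 / 10 * Real.logb 2 N + (Real.logb 2 N - Real.logb 2 Y) + 10 * 6 ∨
    (Nat.log 2 b : ℝ) + Nat.log 2 b' + Nat.log 2 g + Nat.log 2 g' +
        ((Nat.log 2 a' : ℝ) + Nat.log 2 b' + Nat.log 2 g + Nat.log 2 d) / 2 ≤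
      9 / 10 * Real.logb 2 N + (Real.logb 2 N - Real.logb 2 Y) + 10 * 6 ∨
    (Nat.log 2 a : ℝ) + Nat.log 2 a' + Nat.log 2 d + Nat.log 2 d' +
        ((Nat.log 2 a' : ℝ) + Nat.log 2 b' + Nat.log 2 g + Nat.log 2 d) / 2 ≤
      9 / 10 * Real.logb 2 N + (Real.logb 2 N - Real.logb 2 Y) + 10 * 6 := by
  obtain ⟨ha, ha', hb, hb', hg, hg', hd, hd'⟩ := box_pos h
  obtain ⟨-, -, -, -, -, -, -, -, h1, h2, h3, h4, -, -, -, -, -, -, -, -, -, -, h5, h6, -, h7, h8⟩ := h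
  have hN0 : 0 < N := hN
  have hY0 : 0 < Y := hY
  obtain ⟨la, ua⟩ := box_log a ha
  obtain ⟨la', ua'⟩ := box_log a' ha'
  obtain ⟨lb, ub⟩ := box_log b hb
  obtain ⟨lb', ub'⟩ := box_log b' hb'
  obtain ⟨lg, ug⟩ := box_log g hg
  obtain ⟨lg', ug'⟩ := box_log g' hg'
  obtain ⟨ld, ud⟩ := box_log d hd
  obtain ⟨ld', ud'⟩ := box_log d' hd'
  have hn : 0 ≤ Real.logb 2 (N : ℝ) := Real.logb_nonneg (by norm_num) (by exact_mod_cast hN)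
  have hl : Real.logb 2 (Y : ℝ) ≤ Real.logb 2 (N : ℝ) := box_logb_mono hY0 hYN
  have h3' := box_logb_three
  -- products in logarithms
  have m1 := box_logb_mono (Nat.mul_pos ha hb) h1.le
  have m2 := box_logb_mono (Nat.mul_pos ha hg) h2.le
  have m3 := box_logb_mono (Nat.mul_pos hg' hd') h3.le
  have m4 := box_logb_mono (Nat.mul_pos hb' hd') h4.le
  have m5 := box_logb_mono (Nat.mul_pos (Nat.mul_pos ha' hb') (Nat.mul_pos hg hd)) h5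
  have m6 := box_logb_mono (Nat.mul_pos (Nat.mul_pos ha' hg') (Nat.mul_pos hb hd)) h6
  have m7 := box_logb_mono hY0 h7
  have m8 := box_logb_mono hY0 h8
  rw [box_logb_mul ha hb, box_logb_mul ha' hb'] at m1
  rw [box_logb_mul ha hg, box_logb_mul ha' hg'] at m2
  rw [box_logb_mul hg' hd', box_logb_mul hg hd] at m3
  rw [box_logb_mul hb' hd', box_logb_mul hb hd] at m4
  rw [box_logb_mul (Nat.mul_pos ha' hb') (Nat.mul_pos hg hd), box_logb_mul ha' hb',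
    box_logb_mul hg hd, box_logb_mul (by norm_num) hN0] at m5
  rw [box_logb_mul (Nat.mul_pos ha' hg') (Nat.mul_pos hb hd), box_logb_mul ha' hg',
    box_logb_mul hb hd, box_logb_mul (by norm_num) hN0] at m6
  rw [box_logb_mul (Nat.mul_pos ha' hb') (Nat.mul_pos hg' hd'), box_logb_mul ha' hb',
    box_logb_mul hg' hd'] at m7
  rw [box_logb_mul (Nat.mul_pos ha hb) (Nat.mul_pos hg hd), box_logb_mul ha hb,
    box_logb_mul hg hd] at m8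
  exact hLP (Nat.log 2 a) (Nat.log 2 a') (Nat.log 2 b) (Nat.log 2 b') (Nat.log 2 g)
    (Nat.log 2 g') (Nat.log 2 d) (Nat.log 2 d') (Real.logb 2 N) (Real.logb 2 N - Real.logb 2 Y) 6
    (Nat.cast_nonneg _) (Nat.cast_nonneg _) (Nat.cast_nonneg _) (Nat.cast_nonneg _)
    (Nat.cast_nonneg _) (Nat.cast_nonneg _) (Nat.cast_nonneg _) (Nat.cast_nonneg _) hn
    (by linarith) (by norm_num) (by linarith) (by linarith) (by linarith) (by linarith)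
    (by linarith) (by linarith) (by linarith) (by linarith) (by linarith) (by linarith)

/-- back from logarithms -/
theorem box_end {N Y : ℕ} (hN : 1 ≤ N) (hY : 1 ≤ Y) {t : ℝ}
    (ht : t ≤ 9 / 10 * Real.logb 2 N + (Real.logb 2 N - Real.logb 2 Y) + 10 * 6) :
    (2 : ℝ) ^ t ≤ 2 ^ (60 : ℕ) * (N : ℝ) ^ (9 / 10 : ℝ) * ((N : ℝ) / Y) := by
  have hN' : (0 : ℝ) < N := by exact_mod_cast hN
  have hY' : (0 : ℝ) < Y := by exact_mod_cast hY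
  calc (2 : ℝ) ^ t ≤ (2 : ℝ) ^ (9 / 10 * Real.logb 2 N + (Real.logb 2 N - Real.logb 2 Y) + 10 * 6) :=
        Real.rpow_le_rpow_of_exponent_le (by norm_num) ht
    _ = 2 ^ (60 : ℕ) * (N : ℝ) ^ (9 / 10 : ℝ) * ((N : ℝ) / Y) := by
        rw [Real.rpow_add (by norm_num), Real.rpow_add (by norm_num), Real.rpow_sub (by norm_num),
          Real.rpow_logb (by norm_num) (by norm_num) hN',
          Real.rpow_logb (by norm_num) (by norm_num) hY', mul_comm (9 / 10 : ℝ) (Real.logb 2 N),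
          Real.rpow_mul (by norm_num), Real.rpow_logb (by norm_num) (by norm_num) hN']
        have h1 : (2 : ℝ) ^ (10 * 6 : ℝ) = 2 ^ (60 : ℕ) := by
          rw [← Real.rpow_natCast]; norm_num
        rw [h1]
        ring

theorem box_one_add (p q : ℕ) :
    1 + (2 : ℝ) ^ p / 2 ^ q ≤ 2 * (2 : ℝ) ^ (max 0 ((p : ℝ) - q)) := by
  have h1 : (2 : ℝ) ^ p / 2 ^ q = (2 : ℝ) ^ ((p : ℝ) - q) := by
    rw [Real.rpow_sub (by norm_num), Real.rpow_natCast, Real.rpow_natCast]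
  have h2 : (2 : ℝ) ^ ((p : ℝ) - q) ≤ (2 : ℝ) ^ (max 0 ((p : ℝ) - q)) :=
    Real.rpow_le_rpow_of_exponent_le (by norm_num) (le_max_right _ _)
  have h3 : (1 : ℝ) ≤ (2 : ℝ) ^ (max 0 ((p : ℝ) - q)) :=
    Real.one_le_rpow (by norm_num) (le_max_left _ _)
  rw [h1]
  linarith

/-- the lattice strategy, sizes -/
theorem box_size1 (p q r s t u : ℕ) :
    ((2 : ℝ) ^ p * 2 ^ q) * (1 + 2 ^ r / 2 ^ s) * (1 + 2 ^ t / 2 ^ u) ≤
      4 * (2 : ℝ) ^ ((p : ℝ) + q + max 0 ((r : ℝ) - s) + max 0 ((t : ℝ) - u)) := by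
  have h1 := box_one_add r s
  have h2 := box_one_add t u
  rw [Real.rpow_add (by norm_num), Real.rpow_add (by norm_num), Real.rpow_add (by norm_num),
    Real.rpow_natCast, Real.rpow_natCast]
  have h3 : (0 : ℝ) ≤ 1 + (2 : ℝ) ^ r / 2 ^ s := by positivity
  have h4 : (0 : ℝ) ≤ 1 + (2 : ℝ) ^ t / 2 ^ u := by positivity
  have h5 : (0 : ℝ) ≤ (2 : ℝ) ^ p * 2 ^ q := by positivity
  calc ((2 : ℝ) ^ p * 2 ^ q) * (1 + 2 ^ r / 2 ^ s) * (1 + 2 ^ t / 2 ^ u)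
      ≤ ((2 : ℝ) ^ p * 2 ^ q) * (2 * (2 : ℝ) ^ (max 0 ((r : ℝ) - s))) *
        (2 * (2 : ℝ) ^ (max 0 ((t : ℝ) - u))) := by gcongr
    _ = _ := by ring

/-- the conic strategy, sizes -/
theorem box_size2 (p q r s t u v w : ℕ) :
    ((2 : ℝ) ^ p * 2 ^ q * 2 ^ r * 2 ^ s) * Real.sqrt (2 ^ t * 2 ^ u * 2 ^ v * 2 ^ w) =
      (2 : ℝ) ^ ((p : ℝ) + q + r + s + ((t : ℝ) + u + v + w) / 2) := by
  have h1 : Real.sqrt (2 ^ t * 2 ^ u * 2 ^ v * 2 ^ w) = (2 : ℝ) ^ (((t : ℝ) + u + v + w) / 2) := by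
    rw [← Real.rpow_natCast 2 t, ← Real.rpow_natCast 2 u, ← Real.rpow_natCast 2 v,
      ← Real.rpow_natCast 2 w, ← Real.rpow_add (by norm_num), ← Real.rpow_add (by norm_num),
      ← Real.rpow_add (by norm_num), Real.sqrt_eq_rpow, ← Real.rpow_mul (by norm_num)]
    congr 1
    ring
  rw [h1, Real.rpow_add (by norm_num), Real.rpow_add (by norm_num), Real.rpow_add (by norm_num),
    Real.rpow_add (by norm_num), Real.rpow_natCast, Real.rpow_natCast, Real.rpow_natCast,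
    Real.rpow_natCast]

/-- one box -/
theorem box_one (h1 : ST_B1) (h3 : ST_B3) (h4 : ST_B4) (hS : ST_SYM) (hLP : ST_LP) :
    ∀ ε : ℝ, 0 < ε → ∃ C : ℝ, 1 ≤ C ∧ ∀ N S G Y : ℕ, 1 ≤ N → 1 ≤ S → 1 ≤ G →
      S ≤ 16 * N ^ 3 → 1 ≤ Y → Y ≤ N → ∀ i i' j j' k k' l l' : ℕ,
      ∀ E : Finset ((ℕ × ℕ) × (ℕ × ℕ) × (ℕ × ℕ) × ℕ × ℕ),
      (∀ e ∈ E, Tup S G N Y e.1.1 e.1.2 e.2.1.1 e.2.1.2 e.2.2.1.1 e.2.2.1.2 e.2.2.2.1 e.2.2.2.2 ∧
        InBox i i' j j' k k' l l' e.1.1 e.1.2 e.2.1.1 e.2.1.2 e.2.2.1.1 e.2.2.1.2 e.2.2.2.1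
          e.2.2.2.2) →
      (E.card : ℝ) ≤ C * ((S : ℝ) * G) ^ 24 * (N : ℝ) ^ ε * (N : ℝ) ^ (9 / 10 : ℝ) *
        ((N : ℝ) / Y) := by
  intro ε hε
  obtain ⟨C1, hC1, H1⟩ := h1 ε hε
  obtain ⟨C3, hC3, H3⟩ := h3 ε hε
  obtain ⟨C4, hC4, H4⟩ := h4 ε hε
  have hC : (1 : ℝ) ≤ 4 * 2 ^ (60 : ℕ) * (C1 + C3 + C4) := by
    have : (1 : ℝ) ≤ 4 * 2 ^ (60 : ℕ) := by norm_num
    nlinarith
  refine ⟨4 * 2 ^ (60 : ℕ) * (C1 + C3 + C4), hC, ?_⟩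
  intro N S G Y hN hS1 hG hSN hY hYN i i' j j' k k' l l' E hE
  have hN' : (0 : ℝ) < N := by exact_mod_cast hN
  have hY' : (0 : ℝ) < Y := by exact_mod_cast hY
  have hSG : (0 : ℝ) ≤ ((S : ℝ) * G) ^ 24 := by positivity
  have hNe : (0 : ℝ) ≤ (N : ℝ) ^ ε := by positivity
  have hend : (0 : ℝ) ≤ (N : ℝ) ^ (9 / 10 : ℝ) * ((N : ℝ) / Y) := by positivity
  rcases E.eq_empty_or_nonempty with he | ⟨e, he⟩
  · rw [he]
    simp only [Finset.card_empty, Nat.cast_zero]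
    have : (0 : ℝ) ≤ 4 * 2 ^ (60 : ℕ) * (C1 + C3 + C4) := by linarith
    positivity
  -- common final step
  have key : ∀ C' Z : ℝ, 0 ≤ C' → C' ≤ C1 + C3 + C4 →
      Z ≤ 4 * (2 ^ (60 : ℕ) * (N : ℝ) ^ (9 / 10 : ℝ) * ((N : ℝ) / Y)) →
      C' * ((S : ℝ) * G) ^ 24 * (N : ℝ) ^ ε * Z ≤
        4 * 2 ^ (60 : ℕ) * (C1 + C3 + C4) * ((S : ℝ) * G) ^ 24 * (N : ℝ) ^ ε *
          (N : ℝ) ^ (9 / 10 : ℝ) * ((N : ℝ) / Y) := by
    intro C' Z hC' hC'' hZ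
    calc C' * ((S : ℝ) * G) ^ 24 * (N : ℝ) ^ ε * Z
        ≤ C' * ((S : ℝ) * G) ^ 24 * (N : ℝ) ^ ε *
          (4 * (2 ^ (60 : ℕ) * (N : ℝ) ^ (9 / 10 : ℝ) * ((N : ℝ) / Y))) :=
          mul_le_mul_of_nonneg_left hZ (by positivity)
      _ = C' * (4 * 2 ^ (60 : ℕ) * ((S : ℝ) * G) ^ 24 * (N : ℝ) ^ ε *
          ((N : ℝ) ^ (9 / 10 : ℝ) * ((N : ℝ) / Y))) := by ring
      _ ≤ (C1 + C3 + C4) * (4 * 2 ^ (60 : ℕ) * ((S : ℝ) * G) ^ 24 * (N : ℝ) ^ ε *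
          ((N : ℝ) ^ (9 / 10 : ℝ) * ((N : ℝ) / Y))) :=
          mul_le_mul_of_nonneg_right hC'' (by positivity)
      _ = _ := by ring
  obtain ⟨ht, hb⟩ := hE e he
  obtain ⟨b1, b2, b3, b4, b5, b6, b7, b8⟩ := hb
  have hlp := box_lp hLP hN hY hYN ht
  rw [b1, b2, b3, b4, b5, b6, b7, b8] at hlp
  rcases hlp with c1 | c2 | c3 | c4
  · have hcard := H1 N S G Y hN hS1 hG i i' j j' k k' l l' E hE
    have hz : ((2 : ℝ) ^ i' * 2 ^ j') * (1 + 2 ^ k' / 2 ^ i) * (1 + 2 ^ l / 2 ^ j') ≤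
        4 * (2 ^ (60 : ℕ) * (N : ℝ) ^ (9 / 10 : ℝ) * ((N : ℝ) / Y)) :=
      (box_size1 i' j' k' i l j').trans
        (mul_le_mul_of_nonneg_left (box_end hN hY c1) (by norm_num))
    refine hcard.trans ?_
    have := key C1 _ (by linarith) (by linarith) hz
    calc C1 * ((S : ℝ) * G) ^ 24 * (N : ℝ) ^ ε * ((2 : ℝ) ^ i' * 2 ^ j') *
        (1 + 2 ^ k' / 2 ^ i) * (1 + 2 ^ l / 2 ^ j')
        = C1 * ((S : ℝ) * G) ^ 24 * (N : ℝ) ^ ε * (((2 : ℝ) ^ i' * 2 ^ j') *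
          (1 + 2 ^ k' / 2 ^ i) * (1 + 2 ^ l / 2 ^ j')) := by ring
      _ ≤ _ := this
  · -- symmetric case
    classical
    let sw : (ℕ × ℕ) × (ℕ × ℕ) × (ℕ × ℕ) × ℕ × ℕ → (ℕ × ℕ) × (ℕ × ℕ) × (ℕ × ℕ) × ℕ × ℕ :=
      fun e => (e.1, e.2.2.1, e.2.1, e.2.2.2)
    have hinj : Function.Injective sw := by
      rintro ⟨x1, x2, x3, x4⟩ ⟨y1, y2, y3, y4⟩ h
      simp only [sw, Prod.mk.injEq] at h
      obtain ⟨h1, h2, h3, h4⟩ := h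
      rw [h1, h2, h3, h4]
    have hcard' : (E.image sw).card = E.card := Finset.card_image_of_injective _ hinj
    have hE' : ∀ e ∈ E.image sw,
        Tup S G N Y e.1.1 e.1.2 e.2.1.1 e.2.1.2 e.2.2.1.1 e.2.2.1.2 e.2.2.2.1 e.2.2.2.2 ∧
        InBox i i' k k' j j' l l' e.1.1 e.1.2 e.2.1.1 e.2.1.2 e.2.2.1.1 e.2.2.1.2 e.2.2.2.1
          e.2.2.2.2 := by
      intro x hx
      obtain ⟨y, hy, rfl⟩ := Finset.mem_image.1 hx
      obtain ⟨hy1, hy2⟩ := hE y hy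
      refine ⟨hS _ _ _ _ _ _ _ _ _ _ _ _ hy1, ?_⟩
      obtain ⟨q1, q2, q3, q4, q5, q6, q7, q8⟩ := hy2
      exact ⟨q1, q2, q5, q6, q3, q4, q7, q8⟩
    have hcard := H1 N S G Y hN hS1 hG i i' k k' j j' l l' (E.image sw) hE'
    rw [hcard'] at hcard
    have hz : ((2 : ℝ) ^ i' * 2 ^ k') * (1 + 2 ^ j' / 2 ^ i) * (1 + 2 ^ l / 2 ^ k') ≤
        4 * (2 ^ (60 : ℕ) * (N : ℝ) ^ (9 / 10 : ℝ) * ((N : ℝ) / Y)) :=
      (box_size1 i' k' j' i l k').trans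
        (mul_le_mul_of_nonneg_left (box_end hN hY c2) (by norm_num))
    refine hcard.trans ?_
    have := key C1 _ (by linarith) (by linarith) hz
    calc C1 * ((S : ℝ) * G) ^ 24 * (N : ℝ) ^ ε * ((2 : ℝ) ^ i' * 2 ^ k') *
        (1 + 2 ^ j' / 2 ^ i) * (1 + 2 ^ l / 2 ^ k')
        = C1 * ((S : ℝ) * G) ^ 24 * (N : ℝ) ^ ε * (((2 : ℝ) ^ i' * 2 ^ k') *
          (1 + 2 ^ j' / 2 ^ i) * (1 + 2 ^ l / 2 ^ k')) := by ring
      _ ≤ _ := this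
  · have hcard := H3 N S G Y hN hS1 hG hSN i i' j j' k k' l l' E hE
    have hz : ((2 : ℝ) ^ j * 2 ^ j' * 2 ^ k * 2 ^ k') * Real.sqrt (2 ^ i' * 2 ^ j' * 2 ^ k * 2 ^ l) ≤
        4 * (2 ^ (60 : ℕ) * (N : ℝ) ^ (9 / 10 : ℝ) * ((N : ℝ) / Y)) := by
      rw [box_size2]
      have := box_end hN hY c3
      have h0 : (0 : ℝ) ≤ 2 ^ (60 : ℕ) * (N : ℝ) ^ (9 / 10 : ℝ) * ((N : ℝ) / Y) := by positivity
      linarith
    refine hcard.trans ?_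
    have := key C3 _ (by linarith) (by linarith) hz
    calc C3 * ((S : ℝ) * G) ^ 24 * (N : ℝ) ^ ε * ((2 : ℝ) ^ j * 2 ^ j' * 2 ^ k * 2 ^ k') *
        Real.sqrt (2 ^ i' * 2 ^ j' * 2 ^ k * 2 ^ l)
        = C3 * ((S : ℝ) * G) ^ 24 * (N : ℝ) ^ ε * (((2 : ℝ) ^ j * 2 ^ j' * 2 ^ k * 2 ^ k') *
        Real.sqrt (2 ^ i' * 2 ^ j' * 2 ^ k * 2 ^ l)) := by ring
      _ ≤ _ := this
  · have hcard := H4 N S G Y hN hS1 hG hSN i i' j j' k k' l l' E hE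
    have hz : ((2 : ℝ) ^ i * 2 ^ i' * 2 ^ l * 2 ^ l') * Real.sqrt (2 ^ i' * 2 ^ j' * 2 ^ k * 2 ^ l) ≤
        4 * (2 ^ (60 : ℕ) * (N : ℝ) ^ (9 / 10 : ℝ) * ((N : ℝ) / Y)) := by
      rw [box_size2]
      have := box_end hN hY c4
      have h0 : (0 : ℝ) ≤ 2 ^ (60 : ℕ) * (N : ℝ) ^ (9 / 10 : ℝ) * ((N : ℝ) / Y) := by positivity
      linarith
    refine hcard.trans ?_
    have := key C4 _ (by linarith) (by linarith) hz
    calc C4 * ((S : ℝ) * G) ^ 24 * (N : ℝ) ^ ε * ((2 : ℝ) ^ i * 2 ^ i' * 2 ^ l * 2 ^ l') *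
        Real.sqrt (2 ^ i' * 2 ^ j' * 2 ^ k * 2 ^ l)
        = C4 * ((S : ℝ) * G) ^ 24 * (N : ℝ) ^ ε * (((2 : ℝ) ^ i * 2 ^ i' * 2 ^ l * 2 ^ l') *
        Real.sqrt (2 ^ i' * 2 ^ j' * 2 ^ k * 2 ^ l)) := by ring
      _ ≤ _ := this

/-- the logarithm is small -/
theorem box_L (δ : ℝ) (hδ : 0 < δ) : ∃ C : ℝ, 1 ≤ C ∧ ∀ N : ℕ, 1 ≤ N →
    ((Nat.log 2 (3 * N) : ℝ) + 1) ≤ C * (N : ℝ) ^ δ := by
  have hlog2 : 0 < Real.log 2 := Real.log_pos (by norm_num)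
  refine ⟨(3 : ℝ) ^ δ / (δ * Real.log 2) + 1, ?_, ?_⟩
  · have : (0 : ℝ) ≤ (3 : ℝ) ^ δ / (δ * Real.log 2) := by positivity
    linarith
  · intro N hN
    have hN' : (1 : ℝ) ≤ N := by exact_mod_cast hN
    have hN0 : (0 : ℝ) ≤ N := by linarith
    have h1 := (box_log (3 * N) (by omega)).1
    have h2 : Real.logb 2 ((3 * N : ℕ) : ℝ) = Real.log (3 * N) / Real.log 2 := by
      rw [Real.logb]; push_cast; rfl
    have h3 : Real.log (3 * (N : ℝ)) ≤ (3 * (N : ℝ)) ^ δ / δ :=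
      Real.log_le_rpow_div (by positivity) hδ
    have h4 : (3 * (N : ℝ)) ^ δ = (3 : ℝ) ^ δ * (N : ℝ) ^ δ :=
      Real.mul_rpow (by norm_num) hN0
    have h5 : (1 : ℝ) ≤ (N : ℝ) ^ δ := Real.one_le_rpow hN' hδ.le
    have h6 : Real.log (3 * (N : ℝ)) / Real.log 2 ≤ (3 * (N : ℝ)) ^ δ / δ / Real.log 2 :=
      div_le_div_of_nonneg_right h3 hlog2.le
    have h7 : (3 * (N : ℝ)) ^ δ / δ / Real.log 2 =
        (3 : ℝ) ^ δ / (δ * Real.log 2) * (N : ℝ) ^ δ := by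
      rw [h4]; field_simp
    rw [add_mul, one_mul]
    rw [h2] at h1
    linarith

/-- the box of a tuple -/
def boxOf (e : (ℕ × ℕ) × (ℕ × ℕ) × (ℕ × ℕ) × ℕ × ℕ) :
    (ℕ × ℕ) × (ℕ × ℕ) × (ℕ × ℕ) × ℕ × ℕ :=
  ((Nat.log 2 e.1.1, Nat.log 2 e.1.2), (Nat.log 2 e.2.1.1, Nat.log 2 e.2.1.2),
    (Nat.log 2 e.2.2.1.1, Nat.log 2 e.2.2.1.2), Nat.log 2 e.2.2.2.1, Nat.log 2 e.2.2.2.2)

/-- number of boxes -/
theorem box_count {S G N Y : ℕ} (E : Finset ((ℕ × ℕ) × (ℕ × ℕ) × (ℕ × ℕ) × ℕ × ℕ))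
    (hE : ∀ e ∈ E, Tup S G N Y e.1.1 e.1.2 e.2.1.1 e.2.1.2 e.2.2.1.1 e.2.2.1.2 e.2.2.2.1
      e.2.2.2.2) :
    ((E.image boxOf).card : ℝ) ≤ ((Nat.log 2 (3 * N) : ℝ) + 1) ^ 8 := by
  set R := Finset.range (Nat.log 2 (3 * N) + 1) with hR
  have hsub : E.image boxOf ⊆ (R ×ˢ R) ×ˢ ((R ×ˢ R) ×ˢ ((R ×ˢ R) ×ˢ (R ×ˢ R))) := by
    intro x hx
    obtain ⟨e, he, rfl⟩ := Finset.mem_image.1 hx
    obtain ⟨q1, q2, q3, q4, q5, q6, q7, q8⟩ := box_le (hE e he)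
    have hm : ∀ y : ℕ, y ≤ 3 * N → Nat.log 2 y ∈ R := by
      intro y hy
      rw [hR, Finset.mem_range]
      exact Nat.lt_succ_of_le (Nat.log_mono_right hy)
    simp only [boxOf, Finset.mem_product]
    exact ⟨⟨hm _ q1, hm _ q2⟩, ⟨hm _ q3, hm _ q4⟩, ⟨hm _ q5, hm _ q6⟩, hm _ q7, hm _ q8⟩
  have hc := Finset.card_le_card hsub
  have hc2 : ((R ×ˢ R) ×ˢ ((R ×ˢ R) ×ˢ ((R ×ˢ R) ×ˢ (R ×ˢ R)))).card =
      (Nat.log 2 (3 * N) + 1) ^ 8 := by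
    simp only [Finset.card_product, hR, Finset.card_range]
    ring
  rw [hc2] at hc
  exact_mod_cast hc

theorem st_BOX (h1 : ST_B1) (h3 : ST_B3) (h4 : ST_B4) (hS : ST_SYM) (hLP : ST_LP) : ST_BOX := by
  intro ε hε
  obtain ⟨C, hC, H⟩ := box_one h1 h3 h4 hS hLP (ε / 2) (by linarith)
  obtain ⟨L, hL, HL⟩ := box_L (ε / 16) (by linarith)
  have hL8 : (1 : ℝ) ≤ L ^ 8 := one_le_pow₀ hL
  refine ⟨L ^ 8 * C, by nlinarith, ?_⟩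
  intro N S G Y hN hS1 hG hSN hY hYN E hE
  have hN' : (0 : ℝ) < N := by exact_mod_cast hN
  have hY' : (0 : ℝ) < Y := by exact_mod_cast hY
  have hm : ((E.image boxOf).card : ℝ) ≤ L ^ 8 * (N : ℝ) ^ (ε / 2) := by
    refine (box_count E hE).trans ?_
    have hx := HL N hN
    calc ((Nat.log 2 (3 * N) : ℝ) + 1) ^ 8 ≤ (L * (N : ℝ) ^ (ε / 16)) ^ 8 :=
          pow_le_pow_left₀ (by positivity) hx 8
      _ = L ^ 8 * (N : ℝ) ^ (ε / 2) := by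
          rw [mul_pow, ← Real.rpow_natCast ((N : ℝ) ^ (ε / 16)) 8, ← Real.rpow_mul hN'.le]
          congr 2
          push_cast
          ring
  have hfib := fib_le E boxOf (L ^ 8 * (N : ℝ) ^ (ε / 2))
    (C * ((S : ℝ) * G) ^ 24 * (N : ℝ) ^ (ε / 2) * (N : ℝ) ^ (9 / 10 : ℝ) * ((N : ℝ) / Y)) hm
    (by positivity) (by
      intro b hb
      refine H N S G Y hN hS1 hG hSN hY hYN b.1.1 b.1.2 b.2.1.1 b.2.1.2 b.2.2.1.1 b.2.2.1.2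
        b.2.2.2.1 b.2.2.2.2 _ ?_
      intro e he
      rw [Finset.mem_filter] at he
      obtain ⟨he1, he2⟩ := he
      refine ⟨hE e he1, ?_⟩
      rw [← he2]
      exact ⟨rfl, rfl, rfl, rfl, rfl, rfl, rfl, rfl⟩)
  refine hfib.trans (le_of_eq ?_)
  have e1 : (N : ℝ) ^ (9 / 10 + ε) = (N : ℝ) ^ (ε / 2) * (N : ℝ) ^ (ε / 2) *
      (N : ℝ) ^ (9 / 10 : ℝ) := by
    rw [← Real.rpow_add hN', ← Real.rpow_add hN']
    congr 1
    ring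
  rw [e1]
  ring

end Pool.Agent.Helper89.TT
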